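import Pool.Agent.Lib.MP_ce3242_an.Main

set_option autoImplicit false

open Set Filter Topology
open Pool.Agent.Lib.MP_ce3242_an

namespace Pool.Agent.Results.MP_ce3242_an.PolynomialMultiples

/-- Positive answer to Q1, for every `n` and every convex domain `Ω ⊆ ℂⁿ`. -/
theorem result : ∀ (n : ℕ) (Ω : Set (V n)), IsOpen Ω → Ω.Nonempty → Convex ℝ Ω →
    IsHomeomorph (EOm.ofDual : HolDual Ω → EOm Ω) ∧
    ∀ φ ψ : EOm Ω, (∃ z, φ.toFun z ≠ 0) →
      (∃ g : V n → ℂ, AnalyticOnNhd ℂ g univ ∧ ∀ z, ψ.toFun z = φ.toFun z * g z) →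
      ∃ (P : ℕ → MvPolynomial (Fin n) ℂ) (F : ℕ → EOm Ω),
        (∀ k z, (F k).toFun z = φ.toFun z * MvPolynomial.eval z (P k)) ∧
          Tendsto F atTop (𝓝 ψ) :=
  fun _ _ hΩ hne hc => ⟨EOm.isHomeomorph_ofDual hΩ hne hc, main hΩ hne hc⟩

end Pool.Agent.Results.MP_ce3242_an.PolynomialMultiples
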